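import Mathlib

/-!
# Fences, homotopies and the Distortion of finite posets (helper file)
-/

set_option autoImplicit false

namespace Pool.Agent.Helper32.Distortion

/-- comparability graph -/
abbrev cg (A : Type) [PartialOrder A] : SimpleGraph A :=
  SimpleGraph.fromRel (fun x y : A => x ≤ y)

noncomputable def distortion {A : Type} [PartialOrder A] (g : A →o A) : ℕ∞ :=
  ⨅ a : A, (cg A).edist a (g a)

noncomputable def Distortion (A : Type) [PartialOrder A] : ℕ∞ :=
  ⨆ g : A →o A, distortion g

section Fen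

/-- alternating fences -/
def Fen {A : Type} [PartialOrder A] : ℕ → Bool → A → A → Prop
  | 0, _, a, b => a = b
  | n+1, true, a, b => ∃ c, a ≤ c ∧ Fen n false c b
  | n+1, false, a, b => ∃ c, c ≤ a ∧ Fen n true c b

variable {A B : Type} [PartialOrder A] [PartialOrder B]

theorem Fen.map (g : A →o B) : ∀ (n : ℕ) (s : Bool) (a b : A), Fen n s a b → Fen n s (g a) (g b)
  | 0, _, a, b, h => by simp only [Fen] at h ⊢; rw [h]
  | n+1, true, a, b, h => by
      obtain ⟨c, h1, h2⟩ := h
      exact ⟨g c, g.monotone h1, Fen.map g n false c b h2⟩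
  | n+1, false, a, b, h => by
      obtain ⟨c, h1, h2⟩ := h
      exact ⟨g c, g.monotone h1, Fen.map g n true c b h2⟩

theorem Fen.padStart (n : ℕ) (s : Bool) (a b : A) (h : Fen n s a b) : Fen (n+1) (!s) a b := by
  cases s
  · exact ⟨a, le_refl a, h⟩
  · exact ⟨a, le_refl a, h⟩

theorem Fen.padEnd : ∀ (n : ℕ) (s : Bool) (a b : A), Fen n s a b → Fen (n+1) s a b
  | 0, true, a, b, h => by simp only [Fen] at h; subst h; exact ⟨a, le_refl a, rfl⟩
  | 0, false, a, b, h => by simp only [Fen] at h; subst h; exact ⟨a, le_refl a, rfl⟩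
  | n+1, true, a, b, h => by
      obtain ⟨c, h1, h2⟩ := h
      exact ⟨c, h1, Fen.padEnd n false c b h2⟩
  | n+1, false, a, b, h => by
      obtain ⟨c, h1, h2⟩ := h
      exact ⟨c, h1, Fen.padEnd n true c b h2⟩

theorem Fen.mono {n m : ℕ} (hnm : n ≤ m) (s : Bool) (a b : A) (h : Fen n s a b) : Fen m s a b := by
  induction hnm with
  | refl => exact h
  | step _ ih => exact Fen.padEnd _ _ _ _ ih

theorem Fen.padTo (n : ℕ) (s t : Bool) (a b : A) (h : Fen n s a b) : Fen (n+1) t a b := by
  by_cases hst : t = s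
  · subst hst; exact Fen.padEnd _ _ _ _ h
  · have : t = !s := by cases s <;> cases t <;> simp_all
    rw [this]; exact Fen.padStart _ _ _ _ h

theorem Fen.prod : ∀ (n : ℕ) (s : Bool) (a b : A) (c d : B),
    Fen n s a b → Fen n s c d → Fen n s (a, c) (b, d)
  | 0, _, a, b, c, d, h1, h2 => by simp only [Fen] at *; rw [h1, h2]
  | n+1, true, a, b, c, d, h1, h2 => by
      obtain ⟨x, h1, h1'⟩ := h1
      obtain ⟨y, h2, h2'⟩ := h2
      exact ⟨(x, y), ⟨h1, h2⟩, Fen.prod n false _ _ _ _ h1' h2'⟩
  | n+1, false, a, b, c, d, h1, h2 => by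
      obtain ⟨x, h1, h1'⟩ := h1
      obtain ⟨y, h2, h2'⟩ := h2
      exact ⟨(x, y), ⟨h1, h2⟩, Fen.prod n true _ _ _ _ h1' h2'⟩

theorem edist_le_one_of_le {a b : A} (h : a ≤ b ∨ b ≤ a) : (cg A).edist a b ≤ 1 := by
  rw [SimpleGraph.edist_le_one_iff_adj_or_eq]
  by_cases hab : a = b
  · right; exact hab
  · left; exact ⟨hab, h⟩

theorem Fen.edist_le : ∀ (n : ℕ) (s : Bool) (a b : A), Fen n s a b → (cg A).edist a b ≤ n
  | 0, _, a, b, h => by simp only [Fen] at h; subst h; simp
  | n+1, true, a, b, h => by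
      obtain ⟨c, h1, h2⟩ := h
      have := Fen.edist_le n false c b h2
      calc (cg A).edist a b ≤ (cg A).edist a c + (cg A).edist c b := SimpleGraph.edist_triangle
        _ ≤ 1 + n := add_le_add (edist_le_one_of_le (Or.inl h1)) this
        _ = ((n+1 : ℕ) : ℕ∞) := by push_cast; rw [add_comm]
  | n+1, false, a, b, h => by
      obtain ⟨c, h1, h2⟩ := h
      have := Fen.edist_le n true c b h2
      calc (cg A).edist a b ≤ (cg A).edist a c + (cg A).edist c b := SimpleGraph.edist_triangle
        _ ≤ 1 + n := add_le_add (edist_le_one_of_le (Or.inr h1)) this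
        _ = ((n+1 : ℕ) : ℕ∞) := by push_cast; rw [add_comm]

theorem Fen.of_walk {a b : A} (p : (cg A).Walk a b) : ∃ s, Fen p.length s a b := by
  induction p with
  | nil => exact ⟨true, rfl⟩
  | @cons u v w h p ih =>
      obtain ⟨s, hs⟩ := ih
      have hne : u ≠ v ∧ (u ≤ v ∨ v ≤ u) := h
      rw [SimpleGraph.Walk.length_cons]
      rcases hne.2 with h1 | h1
      · cases s with
        | false => exact ⟨true, v, h1, hs⟩
        | true =>
            refine ⟨true, ?_⟩
            generalize hn : p.length = n at hs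
            cases n with
            | zero => exact ⟨v, h1, hs⟩
            | succ m =>
                obtain ⟨c, h2, h3⟩ := hs
                exact Fen.padEnd (m+1) true u w ⟨c, le_trans h1 h2, h3⟩
      · cases s with
        | true => exact ⟨false, v, h1, hs⟩
        | false =>
            refine ⟨false, ?_⟩
            generalize hn : p.length = n at hs
            cases n with
            | zero => exact ⟨v, h1, hs⟩
            | succ m =>
                obtain ⟨c, h2, h3⟩ := hs
                exact Fen.padEnd (m+1) false u w ⟨c, le_trans h2 h1, h3⟩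

theorem Fen.of_edist {a b : A} {n : ℕ} (h : (cg A).edist a b ≤ n) : ∃ s, Fen n s a b := by
  have hne : (cg A).edist a b ≠ ⊤ := ne_top_of_le_ne_top (ENat.natCast_ne_top n) h
  obtain ⟨p, hp⟩ := SimpleGraph.exists_walk_of_edist_ne_top hne
  obtain ⟨s, hs⟩ := Fen.of_walk p
  rw [← hp] at h
  exact ⟨s, Fen.mono (by exact_mod_cast h) s a b hs⟩

theorem edist_map_le (g : A →o B) (a b : A) : (cg B).edist (g a) (g b) ≤ (cg A).edist a b := by
  by_cases h : (cg A).edist a b = ⊤
  · rw [h]; exact le_top
  · obtain ⟨n, hn⟩ := ENat.ne_top_iff_exists.mp h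
    obtain ⟨s, hs⟩ := Fen.of_edist (n := n) (a := a) (b := b) (by rw [hn])
    rw [← hn]
    exact Fen.edist_le n s _ _ (Fen.map g n s a b hs)

/-! even length manipulations -/
theorem extUp : ∀ (j : ℕ) (a b b' : A), Fen (2*j+2) false a b → b ≤ b' → Fen (2*j+2) false a b'
  | 0, a, b, b', h, hb => by
      obtain ⟨c, h1, d, h2, h3⟩ := h
      simp only [Fen] at h3; subst h3
      exact ⟨c, h1, b', le_trans h2 hb, rfl⟩
  | j+1, a, b, b', h, hb => by
      obtain ⟨c, h1, d, h2, h3⟩ := h
      exact ⟨c, h1, d, h2, extUp j d b b' h3 hb⟩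

theorem extDown : ∀ (j : ℕ) (a b b' : A), Fen (2*j+2) true a b → b' ≤ b → Fen (2*j+2) true a b'
  | 0, a, b, b', h, hb => by
      obtain ⟨c, h1, d, h2, h3⟩ := h
      simp only [Fen] at h3; subst h3
      exact ⟨c, h1, b', le_trans hb h2, rfl⟩
  | j+1, a, b, b', h, hb => by
      obtain ⟨c, h1, d, h2, h3⟩ := h
      exact ⟨c, h1, d, h2, extDown j d b b' h3 hb⟩

theorem appUp : ∀ (j : ℕ) (a b b' : A), Fen (2*j+1) false a b → b ≤ b' → Fen (2*j+2) false a b'
  | 0, a, b, b', h, hb => by
      obtain ⟨c, h1, h2⟩ := h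
      simp only [Fen] at h2; subst h2
      exact ⟨c, h1, b', hb, rfl⟩
  | j+1, a, b, b', h, hb => by
      obtain ⟨c, h1, d, h2, h3⟩ := h
      exact ⟨c, h1, d, h2, appUp j d b b' h3 hb⟩

theorem appDown : ∀ (j : ℕ) (a b b' : A), Fen (2*j+1) true a b → b' ≤ b → Fen (2*j+2) true a b'
  | 0, a, b, b', h, hb => by
      obtain ⟨c, h1, h2⟩ := h
      simp only [Fen] at h2; subst h2
      exact ⟨c, h1, b', hb, rfl⟩
  | j+1, a, b, b', h, hb => by
      obtain ⟨c, h1, d, h2, h3⟩ := h
      exact ⟨c, h1, d, h2, appDown j d b b' h3 hb⟩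

/-- `g` moves some point by an alternating fence of length `n` -/
def Near (n : ℕ) (g : A →o A) : Prop := ∃ (a : A) (s : Bool), Fen n s a (g a)

variable [Finite A]

theorem fix_of_le (g : A →o A) (a : A) (h : a ≤ g a) : ∃ x, a ≤ x ∧ g x = x := by
  have hm : Monotone fun n => g^[n] a := g.monotone.monotone_iterate_of_le_map h
  have : WellFoundedGT A := Finite.to_wellFoundedGT
  obtain ⟨n, hn⟩ := WellFoundedGT.monotone_chain_condition ⟨_, hm⟩
  refine ⟨g^[n] a, ?_, ?_⟩
  · exact hm (Nat.zero_le n)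
  · have := hn (n+1) (Nat.le_succ n)
    simp only [OrderHom.coe_mk] at this
    rw [Function.iterate_succ_apply'] at this
    exact this.symm

theorem fix_of_ge (g : A →o A) (a : A) (h : g a ≤ a) : ∃ x, x ≤ a ∧ g x = x := by
  have hm : Antitone fun n => g^[n] a := g.monotone.antitone_iterate_of_map_le h
  have : WellFoundedLT A := Finite.to_wellFoundedLT
  have hm' : Monotone fun n => OrderDual.toDual (g^[n] a) := fun _ _ h => hm h
  have : WellFoundedGT Aᵒᵈ := inferInstance
  obtain ⟨n, hn⟩ := WellFoundedGT.monotone_chain_condition ⟨_, hm'⟩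
  refine ⟨g^[n] a, ?_, ?_⟩
  · exact hm (Nat.zero_le n)
  · have := hn (n+1) (Nat.le_succ n)
    simp only [OrderHom.coe_mk] at this
    rw [Function.iterate_succ_apply'] at this
    exact (OrderDual.toDual.injective this).symm

theorem Near.even (j : ℕ) (g : A →o A) (h : Near (2*j+1) g) : Near (2*j) g := by
  obtain ⟨a, s, h⟩ := h
  cases j with
  | zero =>
      cases s with
      | true =>
          obtain ⟨c, h1, h2⟩ := h
          simp only [Fen] at h2
          obtain ⟨x, _, hx⟩ := fix_of_le g a (h2 ▸ h1)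
          exact ⟨x, true, hx.symm⟩
      | false =>
          obtain ⟨c, h1, h2⟩ := h
          simp only [Fen] at h2
          obtain ⟨x, _, hx⟩ := fix_of_ge g a (h2 ▸ h1)
          exact ⟨x, true, hx.symm⟩
  | succ j =>
      cases s with
      | true =>
          obtain ⟨c, h1, h2⟩ := h
          exact ⟨c, false, extUp j c _ _ h2 (g.monotone h1)⟩
      | false =>
          obtain ⟨c, h1, h2⟩ := h
          exact ⟨c, true, extDown j c _ _ h2 (g.monotone h1)⟩

theorem Near.up (j : ℕ) (g g' : A →o A) (hg : g ≤ g') (h : Near (2*j) g) : Near (2*j) g' := by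
  obtain ⟨a, s, h⟩ := h
  cases j with
  | zero =>
      have h : a = g a := by simpa [Fen] using h
      obtain ⟨x, _, hx⟩ := fix_of_le g' a (by rw [h]; rw [← h]; exact le_trans (le_of_eq h) (hg a))
      exact ⟨x, true, hx.symm⟩
  | succ j =>
      cases s with
      | true =>
          obtain ⟨c, h1, h2⟩ := h
          exact ⟨c, false, appUp j c _ _ h2 (le_trans (g.monotone h1) (hg c))⟩
      | false =>
          exact ⟨a, false, extUp j a _ _ h (hg a)⟩

theorem Near.down (j : ℕ) (g g' : A →o A) (hg : g' ≤ g) (h : Near (2*j) g) : Near (2*j) g' := by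
  obtain ⟨a, s, h⟩ := h
  cases j with
  | zero =>
      have h : a = g a := by simpa [Fen] using h
      obtain ⟨x, _, hx⟩ := fix_of_ge g' a (le_trans (hg a) (le_of_eq h.symm))
      exact ⟨x, true, hx.symm⟩
  | succ j =>
      cases s with
      | false =>
          obtain ⟨c, h1, h2⟩ := h
          exact ⟨c, true, appDown j c _ _ h2 (le_trans (hg c) (g.monotone h1))⟩
      | true =>
          exact ⟨a, true, extDown j a _ _ h (hg a)⟩

/-- fence-connected maps -/
def Conn {A B : Type} [PartialOrder A] [PartialOrder B] (g h : A →o B) : Prop :=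
  Relation.ReflTransGen (fun f g : A →o B => f ≤ g ∨ g ≤ f) g h

theorem Near.conn (j : ℕ) (g g' : A →o A) (hg : Conn g g') (h : Near (2*j) g) : Near (2*j) g' := by
  induction hg with
  | refl => exact h
  | tail _ h2 ih =>
      rcases h2 with h2 | h2
      · exact Near.up j _ _ h2 ih
      · exact Near.down j _ _ h2 ih

end Fen

section Tree

variable {P : Type} [PartialOrder P]

/-- distance in the comparability graph -/
noncomputable abbrev D (a b : P) : ℕ := (cg P).dist a b

/-- comparable and distinct -/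
def Nb (a b : P) : Prop := a < b ∨ b < a

theorem Nb.symm {a b : P} (h : Nb a b) : Nb b a := Or.symm h

theorem Nb.adj {a b : P} (h : Nb a b) : (cg P).Adj a b := by
  rcases h with h | h
  · exact ⟨h.ne, Or.inl h.le⟩
  · exact ⟨h.ne', Or.inr h.le⟩

theorem nb_of_adj {a b : P} (h : (cg P).Adj a b) : Nb a b := by
  have hne : a ≠ b ∧ (a ≤ b ∨ b ≤ a) := h
  rcases hne.2 with h1 | h1
  · exact Or.inl (lt_of_le_of_ne h1 hne.1)
  · exact Or.inr (lt_of_le_of_ne h1 hne.1.symm)

theorem D_map (hc : (cg P).Connected) (g : P →o P) (a b : P) : D (g a) (g b) ≤ D a b := by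
  have h := edist_map_le g a b
  have h1 := (hc.preconnected a b).coe_dist_eq_edist
  have h2 := (hc.preconnected (g a) (g b)).coe_dist_eq_edist
  rw [← h1, ← h2] at h
  exact_mod_cast h

theorem D_tri (hc : (cg P).Connected) (a b c : P) : D a c ≤ D a b + D b c := hc.dist_triangle

theorem D_comm (a b : P) : D a b = D b a := SimpleGraph.dist_comm

theorem D_zero (hc : (cg P).Connected) {a b : P} (h : D a b = 0) : a = b :=
  hc.dist_eq_zero_iff.mp h

theorem D_one {a b : P} (h : D a b = 1) : Nb a b :=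
  nb_of_adj (SimpleGraph.dist_eq_one_iff_adj.mp h)

theorem D_nb {a b : P} (h : Nb a b) : D a b = 1 :=
  SimpleGraph.dist_eq_one_iff_adj.mpr h.adj

/-- one step toward `b` inside the retract `Fix e` -/
theorem step (hc : (cg P).Connected) (e : P →o P) (he : ∀ x, e (e x) = e x) (x b : P)
    (hx : e x = x) (hb : e b = b) (hne : x ≠ b) :
    ∃ y, e y = y ∧ Nb x y ∧ D y b + 1 = D x b := by
  obtain ⟨p, hp⟩ := hc.exists_walk_length_eq_dist x b
  cases p with
  | nil => exact absurd rfl hne
  | @cons _ v _ h p =>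
      rw [SimpleGraph.Walk.length_cons] at hp
      have h1 : D v b ≤ p.length := SimpleGraph.dist_le p
      have h2 : D (e v) (e b) ≤ D v b := D_map hc e v b
      rw [hb] at h2
      have h3 : x ≤ e v ∨ e v ≤ x := by
        have hh : x ≠ v ∧ (x ≤ v ∨ v ≤ x) := h
        rcases hh.2 with h4 | h4
        · left; have := e.monotone h4; rwa [hx] at this
        · right; have := e.monotone h4; rwa [hx] at this
      have h5 : x ≠ e v := by
        intro h6
        rw [← h6] at h2
        have : D x b = (cg P).dist x b := rfl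
        omega
      have hnb : Nb x (e v) := by
        rcases h3 with h | h
        · exact Or.inl (lt_of_le_of_ne h h5)
        · exact Or.inr (lt_of_le_of_ne h h5.symm)
      refine ⟨e v, he v, hnb, ?_⟩
      have h7 := D_tri hc x (e v) b
      rw [D_nb hnb] at h7
      have : D x b = (cg P).dist x b := rfl
      omega

/-- parity: in a poset without 3-chains adjacent points have distances differing by exactly one -/
theorem parity (h3 : ∀ x y z : P, x < y → y < z → False) (hc : (cg P).Connected)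
    (z x y : P) (h : Nb x y) : D z x = D z y + 1 ∨ D z y = D z x + 1 := by
  classical
  let c : (cg P).Coloring Bool := SimpleGraph.Coloring.mk (fun x => decide (∃ y, y < x)) (by
    intro u v huv
    rcases nb_of_adj huv with h | h
    · have h1 : ¬ ∃ y, y < u := fun ⟨y, hy⟩ => h3 _ _ _ hy h
      have h2 : ∃ y, y < v := ⟨u, h⟩
      simp [h1, h2]
    · have h1 : ¬ ∃ y, y < v := fun ⟨y, hy⟩ => h3 _ _ _ hy h
      have h2 : ∃ y, y < u := ⟨v, h⟩
      simp [h1, h2])
  obtain ⟨p, hp⟩ := hc.exists_walk_length_eq_dist z x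
  obtain ⟨q, hq⟩ := hc.exists_walk_length_eq_dist z y
  have e1 := c.even_length_iff_congr p
  have e2 := c.even_length_iff_congr q
  have hv := c.valid h.adj
  have t1 := D_tri hc z x y
  have t2 := D_tri hc z y x
  rw [D_nb h] at t1
  rw [D_nb h.symm] at t2
  have hne : D z x ≠ D z y := by
    intro heq
    have : p.length = q.length := by rw [hp, hq]; exact heq
    rw [this] at e1
    have : (c z ↔ c x) ↔ (c z ↔ c y) := by rw [← e1, ← e2]
    apply hv
    cases hz : c z <;> cases hx : c x <;> cases hy : c y <;> simp_all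
  omega

/-- `S` is a 2-core -/
def TwoCore (S : Set P) : Prop :=
  ∀ x ∈ S, ∃ y ∈ S, ∃ z ∈ S, y ≠ z ∧ Nb x y ∧ Nb x z

/-- unique closer neighbour -/
theorem ucn (hc : (cg P).Connected) (e : P →o P) (he : ∀ x, e (e x) = e x)
    (hno : ∀ S : Set P, TwoCore S → (∀ x ∈ S, e x = x) → S = ∅) :
    ∀ (n : ℕ) (z b a1 a2 : P), e z = z → e b = b → e a1 = a1 → e a2 = a2 → Nb b a1 → Nb b a2 →
      D b z = n → D a1 z + 1 = D b z → D a2 z + 1 = D b z → a1 = a2 := by
  intro n
  induction n using Nat.strong_induction_on with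
  | _ n ih =>
  intro z b a1 a2 hz hb ha1 ha2 hn1 hn2 hn hd1 hd2
  by_contra hne
  have key : TwoCore {x : P | e x = x ∧ D b x + D x z = D b z} := by
    rintro x ⟨hx, hxd⟩
    by_cases hxb : x = b
    · subst hxb
      refine ⟨a1, ⟨ha1, ?_⟩, a2, ⟨ha2, ?_⟩, hne, hn1, hn2⟩
      · rw [D_nb hn1]; omega
      · rw [D_nb hn2]; omega
    by_cases hxz : x = z
    · subst hxz
      have hz1 : x ≠ a1 := by
        rintro rfl
        have : D x x = 0 := SimpleGraph.dist_self
        have : D a2 x = 0 := by omega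
        exact hne (D_zero hc this).symm
      have hz2 : x ≠ a2 := by
        rintro rfl
        have : D x x = 0 := SimpleGraph.dist_self
        have : D a1 x = 0 := by omega
        exact hne (D_zero hc this)
      obtain ⟨y1, hy1, hny1, hdy1⟩ := step hc e he x a1 hx ha1 hz1
      obtain ⟨y2, hy2, hny2, hdy2⟩ := step hc e he x a2 hx ha2 hz2
      have c1 := D_comm x a1
      have c2 := D_comm x a2
      have c3 := D_comm y1 a1
      have c4 := D_comm y2 a2
      have b1 := D_nb hn1
      have b2 := D_nb hn2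
      have t1 := D_tri hc b a1 y1
      have t2 := D_tri hc b a2 y2
      have t3 := D_tri hc b y1 x
      have t4 := D_tri hc b y2 x
      have m1 := D_nb hny1.symm
      have m2 := D_nb hny2.symm
      have hy12 : y1 ≠ y2 := by
        rintro rfl
        exact hne (ih (D b y1) (by omega) y1 b a1 a2 hy1 hb ha1 ha2 hn1 hn2 rfl (by omega) (by omega))
      refine ⟨y1, ⟨hy1, by omega⟩, y2, ⟨hy2, by omega⟩, hy12, hny1, hny2⟩
    · obtain ⟨y1, hy1, hny1, hdy1⟩ := step hc e he x b hx hb hxb
      obtain ⟨y2, hy2, hny2, hdy2⟩ := step hc e he x z hx hz hxz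
      have c1 := D_comm x b
      have c3 := D_comm y1 b
      have m1 := D_nb hny1.symm
      have m2 := D_nb hny2
      have t1 := D_tri hc y1 x z
      have t2 := D_tri hc b y1 z
      have t3 := D_tri hc b x y2
      have t4 := D_tri hc b y2 z
      refine ⟨y1, ⟨hy1, by omega⟩, y2, ⟨hy2, by omega⟩, ?_, hny1, hny2⟩
      rintro rfl
      omega
  have := hno _ key (fun x hx => hx.1)
  have hbm : b ∈ {x : P | e x = x ∧ D b x + D x z = D b z} := by
    refine ⟨hb, ?_⟩
    have : D b b = 0 := SimpleGraph.dist_self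
    omega
  rw [this] at hbm
  exact hbm

/-- rigidity: homotopies fix 2-cores in posets without 3-chains -/
theorem rigid (h3 : ∀ x y z : P, x < y → y < z → False) (S : Set P) (hS : TwoCore S)
    (g g' : P →o P) (hg : Conn g g') (hfix : ∀ x ∈ S, g x = x) : ∀ x ∈ S, g' x = x := by
  induction hg with
  | refl => exact hfix
  | @tail g1 g2 _ h2 ih =>
      intro x hx
      have hx1 := ih x hx
      obtain ⟨y, hy, z, hz, hyz, hn1, hn2⟩ := hS x hx
      have hy1 := ih y hy
      have hz1 := ih z hz
      rcases h2 with h2 | h2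
      · -- g1 ≤ g2
        by_contra hne
        have hlt : x < g2 x := by
          have := h2 x
          rw [hx1] at this
          exact lt_of_le_of_ne this (Ne.symm hne)
        have up : ∀ w, Nb x w → g1 w = w → g2 x = w := by
          intro w hw hw1
          rcases hw with hw | hw
          · have e1 : g2 w = w := by
              by_contra hne2
              have := h2 w
              rw [hw1] at this
              exact h3 _ _ _ hw (lt_of_le_of_ne this (Ne.symm hne2))
            have e2 : g2 x ≤ w := by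
              have := g2.monotone hw.le
              rwa [e1] at this
            by_contra hne3
            exact h3 _ _ _ hlt (lt_of_le_of_ne e2 hne3)
          · exact (h3 _ _ _ hw hlt).elim
        exact hyz ((up y hn1 hy1).symm.trans (up z hn2 hz1))
      · by_contra hne
        have hlt : g2 x < x := by
          have := h2 x
          rw [hx1] at this
          exact lt_of_le_of_ne this hne
        have up : ∀ w, Nb x w → g1 w = w → g2 x = w := by
          intro w hw hw1
          rcases hw with hw | hw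
          · exact (h3 _ _ _ hlt hw).elim
          · have e1 : g2 w = w := by
              by_contra hne2
              have := h2 w
              rw [hw1] at this
              exact h3 _ _ _ (lt_of_le_of_ne this hne2) hw
            have e2 : w ≤ g2 x := by
              have := g2.monotone hw.le
              rwa [e1] at this
            by_contra hne3
            exact h3 _ _ _ (lt_of_le_of_ne e2 (Ne.symm hne3)) hlt
        exact hyz ((up y hn1 hy1).symm.trans (up z hn2 hz1))

end Tree

section Gate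

variable {P : Type} [PartialOrder P]

/-- `e` is an idempotent iterate-like companion of `F` whose image contains no 2-core -/
structure Comp (F e : P →o P) : Prop where
  idem : ∀ x, e (e x) = e x
  comm : ∀ x, F (e x) = e (F x)
  fix : ∀ x, F x = x → e x = x
  up : ∀ x, x ≤ F x → F (e x) = e x
  down : ∀ x, F x ≤ x → F (e x) = e x
  no : ∀ S : Set P, TwoCore S → (∀ x ∈ S, e x = x) → S = ∅

theorem convex (hc : (cg P).Connected) (F e : P →o P) (h : Comp F e) (z1 z2 : P)
    (h1 : F z1 = z1) (h2 : F z2 = z2) (hne : z1 ≠ z2) :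
    ∃ y, F y = y ∧ Nb z1 y ∧ D y z2 + 1 = D z1 z2 := by
  obtain ⟨y, hy, hnb, hd⟩ := step hc e h.idem z1 z2 (h.fix _ h1) (h.fix _ h2) hne
  refine ⟨y, ?_, hnb, hd⟩
  have e1 : e (F y) = F y := by rw [← h.comm, hy]
  have d1 := D_map hc F y z2
  rw [h2] at d1
  have hneq : F y ≠ z1 := by
    intro h5
    rw [h5] at d1
    omega
  have hnb2 : Nb z1 (F y) := by
    rcases hnb with h5 | h5
    · left
      have := F.monotone h5.le
      rw [h1] at this
      exact lt_of_le_of_ne this (Ne.symm hneq)
    · right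
      have := F.monotone h5.le
      rw [h1] at this
      exact lt_of_le_of_ne this hneq
  have t := D_tri hc z1 (F y) z2
  rw [D_nb hnb2] at t
  exact ucn hc e h.idem h.no _ z2 z1 (F y) y (h.fix _ h2) (h.fix _ h1) e1 hy hnb2 hnb rfl
    (by omega) (by omega)

theorem gate (h3 : ∀ x y z : P, x < y → y < z → False) (hc : (cg P).Connected)
    (F e : P →o P) (h : Comp F e) (w z : P) (hw : e w = w)
    (hz : F z = z) (hmin : ∀ z1, F z1 = z1 → D w z ≤ D w z1) :
    ∀ (n : ℕ) (z1 : P), F z1 = z1 → D z1 z = n → D w z1 = D w z + n := by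
  intro n
  induction n using Nat.strong_induction_on with
  | _ n ih =>
  intro z1 h1 hn
  by_cases hne : z1 = z
  · subst hne
    have : D z1 z1 = 0 := SimpleGraph.dist_self
    omega
  obtain ⟨y, hy, hnb, hd⟩ := convex hc F e h z1 z h1 hz hne
  have hy1 := ih (D y z) (by omega) y hy rfl
  rcases parity h3 hc w z1 y hnb with hp | hp
  · omega
  · exfalso
    by_cases hyz : y = z
    · subst hyz
      have := hmin z1 h1
      omega
    obtain ⟨y2, hy2, hnb2, hd2⟩ := convex hc F e h y z hy hz hyz
    have hy3 := ih (D y2 z) (by omega) y2 hy2 rfl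
    have c1 := D_comm w y
    have c2 := D_comm w y2
    have c3 := D_comm w z1
    have := ucn hc e h.idem h.no _ w y z1 y2 hw (h.fix _ hy) (h.fix _ h1) (h.fix _ hy2) hnb.symm hnb2
      rfl (by omega) (by omega)
    subst this
    omega

theorem gate_mono (h3 : ∀ x y z : P, x < y → y < z → False) (hc : (cg P).Connected)
    (F F' e e' : P →o P) (h : Comp F e) (h' : Comp F' e') (hF : F ≤ F') (hee : e ≤ e') (p0 z z' : P)
    (hz : F z = z) (hmin : ∀ z1, F z1 = z1 → D (e p0) z ≤ D (e p0) z1)
    (hz' : F' z' = z') (hmin' : ∀ z1, F' z1 = z1 → D (e' p0) z' ≤ D (e' p0) z1) : z ≤ z' := by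
  -- the two transported fixed points
  have hzy' : z ≤ e' z := by
    have := hee z
    rwa [h.fix _ hz] at this
  have hyz' : e z' ≤ z' := by
    have := hee z'
    rwa [h'.fix _ hz'] at this
  have hy' : F' (e' z) = e' z := h'.up z (by have := hF z; rwa [hz] at this)
  have hy : F (e z') = e z' := h.down z' (by have := hF z'; rwa [hz'] at this)
  generalize hw : e p0 = w at hmin
  generalize hw' : e' p0 = w' at hmin'
  have hew : e w = w := by rw [← hw, h.idem]
  have hew' : e' w' = w' := by rw [← hw', h'.idem]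
  have hww' : w ≤ w' := by rw [← hw, ← hw']; exact hee p0
  generalize hyy' : e' z = y' at hzy' hy'
  generalize hyy : e z' = y at hyz' hy
  have g1 := gate h3 hc F e h w z hew hz hmin _ y hy rfl
  have g2 := gate h3 hc F' e' h' w' z' hew' hz' hmin' _ y' hy' rfl
  -- e' w and e w'
  have a1 : w ≤ e' w := by have := hee w; rwa [hew] at this
  have a2 : e' w ≤ w' := by
    have : e' (e p0) ≤ e' (e' p0) := e'.monotone (hee p0)
    rwa [hw, hw', hew'] at this
  have b1 : w ≤ e w' := by have := e.monotone hww'; rwa [hew] at this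
  have b2 : e w' ≤ w' := by have := hee w'; rwa [hew'] at this
  have a3 : e' w = w ∨ e' w = w' := by
    by_contra hcon
    push Not at hcon
    exact h3 _ _ _ (lt_of_le_of_ne a1 hcon.1.symm) (lt_of_le_of_ne a2 hcon.2)
  have b3 : e w' = w ∨ e w' = w' := by
    by_contra hcon
    push Not at hcon
    exact h3 _ _ _ (lt_of_le_of_ne b1 hcon.1.symm) (lt_of_le_of_ne b2 hcon.2)
  have dww : D w w' ≤ 1 := by
    by_cases hq : w = w'
    · rw [hq]
      have : D w' w' = 0 := SimpleGraph.dist_self
      omega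
    · rw [D_nb (Or.inl (lt_of_le_of_ne hww' hq))]
  have m1 := D_map hc e w' z'
  have m2 := D_map hc e' w z
  rw [hyy] at m1
  rw [hyy'] at m2
  have t1 := D_tri hc w w' y
  have t2 := D_tri hc w' w y'
  have c0 := D_comm w w'
  by_cases e1 : D y z = 0
  · rw [← D_zero hc e1]; exact hyz'
  by_cases e2 : D y' z' = 0
  · rw [← D_zero hc e2]; exact hzy'
  -- all the inequalities are tight
  have k1 : D w y ≤ D w' z' + 1 := by
    rcases b3 with hb | hb
    · rw [hb] at m1; omega
    · rw [hb] at m1; omega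
  have k2 : D w' y' ≤ D w z + 1 := by
    rcases a3 with hb | hb
    · rw [hb] at m2; omega
    · rw [hb] at m2; omega
  have hb : e w' = w' := by
    rcases b3 with hb | hb
    · rw [hb] at m1; omega
    · exact hb
  have ha : e' w = w := by
    rcases a3 with hb | hb
    · exact hb
    · rw [hb] at m2; omega
  have hlt : w < w' := by
    refine lt_of_le_of_ne hww' ?_
    rintro hq
    subst hq
    have : D w w = 0 := SimpleGraph.dist_self
    rw [hb] at m1
    omega
  have n1 : Nb y z := D_one (by omega)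
  have n2 : Nb y' z' := D_one (by omega)
  rcases n1 with n1 | n1
  · -- y < z : z is maximal
    have q1 : y' = z := by
      by_contra hq
      exact h3 _ _ _ n1 (lt_of_le_of_ne hzy' (Ne.symm hq))
    subst q1
    rcases n2 with n2 | n2
    · exact n2.le
    · exfalso
      have q2 : y = z' := by
        by_contra hq
        exact h3 _ _ _ (lt_of_le_of_ne hyz' hq) n2
      subst q2
      -- now y = z' < z = y'
      have hey : e y = y := h.fix _ hy
      have hez : e y' = y' := h.fix _ hz
      by_cases hwz : w = y'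
      · subst hwz
        exact h3 _ _ _ n1 hlt
      · obtain ⟨w1, hw1, hnb1, hd1⟩ := step hc e h.idem w y' hew hez hwz
        have hd : D y' y = 1 := D_nb (Or.inr n1)
        have s1 := D_tri hc w1 y' y
        have s2 := D_tri hc w w1 y
        have s3 := D_nb hnb1
        have s4 := D_comm y y'
        have s5 := D_nb (Or.inl hlt : Nb w w')
        have := ucn hc e h.idem h.no _ y w w1 w' hey hew hw1 hb hnb1 (Or.inl hlt) rfl
          (by omega) (by omega)
        subst this
        omega
  · -- z < y ≤ z'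
    exact (lt_of_lt_of_le n1 hyz').le

end Gate

section Alg

variable {P : Type} [PartialOrder P]

theorem mul_app (g h : P →o P) (x : P) : (g * h) x = g (h x) := rfl

theorem mul_le (g g' h h' : P →o P) (h1 : g ≤ g') (h2 : h ≤ h') : g * h ≤ g' * h' := by
  intro x
  exact le_trans (h1 (h x)) (g'.monotone (h2 x))

theorem pow_le (g g' : P →o P) (h1 : g ≤ g') : ∀ n : ℕ, g ^ n ≤ g' ^ n
  | 0 => by simp
  | n+1 => by rw [pow_succ, pow_succ]; exact mul_le _ _ _ _ (pow_le g g' h1 n) h1

theorem Conn.refl {A B : Type} [PartialOrder A] [PartialOrder B] (g : A →o B) : Conn g g :=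
  Relation.ReflTransGen.refl

theorem Conn.trans {A B : Type} [PartialOrder A] [PartialOrder B] {g h k : A →o B}
    (h1 : Conn g h) (h2 : Conn h k) : Conn g k := Relation.ReflTransGen.trans h1 h2

theorem Conn.symm {A B : Type} [PartialOrder A] [PartialOrder B] {g h : A →o B}
    (h1 : Conn g h) : Conn h g := by
  induction h1 with
  | refl => exact Conn.refl _
  | tail _ h2 ih => exact Conn.trans (Relation.ReflTransGen.single h2.symm) ih

theorem Conn.of_le {A B : Type} [PartialOrder A] [PartialOrder B] {g h : A →o B}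
    (h1 : g ≤ h) : Conn g h := Relation.ReflTransGen.single (Or.inl h1)

theorem Conn.lift {A B A' B' : Type} [PartialOrder A] [PartialOrder B] [PartialOrder A']
    [PartialOrder B'] (φ : (A →o B) → (A' →o B')) (hφ : Monotone φ) {g h : A →o B}
    (h1 : Conn g h) : Conn (φ g) (φ h) := by
  induction h1 with
  | refl => exact Conn.refl _
  | tail _ h2 ih =>
      refine Conn.trans ih (Relation.ReflTransGen.single ?_)
      rcases h2 with h2 | h2
      · exact Or.inl (hφ h2)
      · exact Or.inr (hφ h2)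

theorem Conn.mul {g g' h h' : P →o P} (h1 : Conn g g') (h2 : Conn h h') :
    Conn (g * h) (g' * h') :=
  Conn.trans (Conn.lift (fun k => k * h) (fun _ _ hk => mul_le _ _ _ _ hk le_rfl) h1)
    (Conn.lift (fun k => g' * k) (fun _ _ hk => mul_le _ _ _ _ le_rfl hk) h2)

/-- one exponent making all powers idempotent -/
theorem exists_idem (M : Type) [Monoid M] [Finite M] :
    ∃ N : ℕ, 0 < N ∧ ∀ g : M, g ^ N * g ^ N = g ^ N := by
  classical
  have h1 : ∀ g : M, ∃ n : ℕ, 0 < n ∧ IsIdempotentElem (g ^ n) := by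
    intro g
    obtain ⟨a, b, hab, he⟩ := Finite.exists_ne_map_eq_of_infinite (fun n : ℕ => g ^ (n+1))
    wlog hlt : a < b generalizing a b
    · exact this b a hab.symm he.symm (by omega)
    have he : g ^ (a+1) = g ^ (b+1) := he
    -- g^(a+1) = g^(a+1+d)
    obtain ⟨d, rfl⟩ : ∃ d, b = a + d := ⟨b - a, by omega⟩
    have hd : 0 < d := by omega
    have per : ∀ k : ℕ, a + 1 ≤ k → g ^ (k + d) = g ^ k := by
      intro k hk
      obtain ⟨t, rfl⟩ : ∃ t, k = a + 1 + t := ⟨k - (a+1), by omega⟩
      rw [show a + 1 + t + d = (a + d + 1) + t by ring, pow_add, ← he, ← pow_add]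
    have per2 : ∀ m k : ℕ, a + 1 ≤ k → g ^ (k + m * d) = g ^ k := by
      intro m
      induction m with
      | zero => intro k _; simp
      | succ m ih =>
          intro k hk
          rw [show k + (m+1) * d = (k + m * d) + d by ring, per _ (by omega), ih k hk]
    refine ⟨(a+1) * d, by positivity, ?_⟩
    have hle : a + 1 ≤ (a+1) * d := Nat.le_mul_of_pos_right _ hd
    have := per2 (a+1) ((a+1)*d) hle
    rw [IsIdempotentElem, ← pow_add]
    exact this
  choose n hn hi using h1
  have := Fintype.ofFinite M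
  refine ⟨∏ g : M, n g, Finset.prod_pos (fun g _ => hn g), ?_⟩
  intro g
  obtain ⟨m, hm⟩ := Finset.dvd_prod_of_mem n (Finset.mem_univ g)
  rw [hm, pow_mul]
  have hi2 : IsIdempotentElem ((g ^ n g) ^ m) := (hi g).pow m
  exact hi2

theorem pow_fix (F : P →o P) (x : P) (h : F x = x) : ∀ n : ℕ, (F ^ n) x = x
  | 0 => rfl
  | n+1 => by rw [pow_succ, mul_app, h, pow_fix F x h n]

theorem pow_ge (F : P →o P) (x : P) (h : x ≤ F x) : ∀ n : ℕ, (F ^ n) x ≤ (F ^ (n+1)) x := by
  intro n
  rw [pow_succ, mul_app]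
  exact (F ^ n).monotone h

theorem pow_le' (F : P →o P) (x : P) (h : F x ≤ x) : ∀ n : ℕ, (F ^ (n+1)) x ≤ (F ^ n) x := by
  intro n
  rw [pow_succ, mul_app]
  exact (F ^ n).monotone h

theorem fix_up (F : P →o P) (N : ℕ) (hN : 0 < N) (hi : F ^ N * F ^ N = F ^ N) (x : P)
    (h : x ≤ F x) : F ((F ^ N) x) = (F ^ N) x := by
  have hm : Monotone fun n => (F ^ n) x := monotone_nat_of_le_succ (pow_ge F x h)
  have h1 : (F ^ N) x ≤ (F ^ (N+1)) x := pow_ge F x h N
  have h2 : (F ^ (N+1)) x ≤ (F ^ (N+N)) x := hm (by omega)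
  rw [pow_add F N N, hi] at h2
  have h3 := le_antisymm h2 h1
  rw [pow_succ'] at h3
  exact h3

theorem fix_down (F : P →o P) (N : ℕ) (hN : 0 < N) (hi : F ^ N * F ^ N = F ^ N) (x : P)
    (h : F x ≤ x) : F ((F ^ N) x) = (F ^ N) x := by
  have hm : Antitone fun n => (F ^ n) x := antitone_nat_of_succ_le (pow_le' F x h)
  have h1 : (F ^ (N+1)) x ≤ (F ^ N) x := pow_le' F x h N
  have h2 : (F ^ (N+N)) x ≤ (F ^ (N+1)) x := hm (by omega)
  rw [pow_add F N N, hi] at h2
  have h3 := le_antisymm h1 h2
  rw [pow_succ'] at h3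
  exact h3

end Alg

section Select

variable {P Q : Type} [PartialOrder P] [PartialOrder Q]

theorem conn_of_fen (e : Q →o (P →o P)) : ∀ (n : ℕ) (s : Bool) (a b : Q), Fen n s a b → Conn (e a) (e b)
  | 0, _, a, b, h => by simp only [Fen] at h; rw [h]; exact Conn.refl _
  | n+1, true, a, b, h => by
      obtain ⟨c, h1, h2⟩ := h
      exact Conn.trans (Conn.of_le (e.monotone h1)) (conn_of_fen e n false c b h2)
  | n+1, false, a, b, h => by
      obtain ⟨c, h1, h2⟩ := h
      exact Conn.trans (Conn.of_le (e.monotone h1)).symm (conn_of_fen e n true c b h2)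

theorem fen_of_conn (hc : (cg P).Connected) (a b : P) : ∃ n s, Fen n s a b := by
  have h : (cg P).edist a b ≤ (((cg P).dist a b : ℕ) : ℕ∞) := by
    rw [(hc.preconnected a b).coe_dist_eq_edist]
  obtain ⟨s, hs⟩ := Fen.of_edist h
  exact ⟨_, s, hs⟩

/-- The structural dichotomy for families of self-maps of a connected poset without 3-chains. -/
theorem dichotomy [Finite P] [Nonempty P] [Finite Q] [Nonempty Q]
    (h3 : ∀ x y z : P, x < y → y < z → False)
    (hcP : (cg P).Connected) (hcQ : (cg Q).Connected) (F : Q →o (P →o P)) :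
    (∃ (ρ : P →o P) (q0 : Q), ∀ (q : Q) (p : P), F q (ρ p) = F q0 (ρ p) ∧
        ρ (F q0 (ρ p)) = F q0 (ρ p)) ∨
    (∃ s : Q →o P, ∀ q, F q (s q) = s q) := by
  classical
  have : Finite (P →o P) := Finite.of_injective (fun g : P →o P => (g : P → P)) DFunLike.coe_injective
  obtain ⟨N, hN, hidem⟩ := exists_idem (P →o P)
  obtain ⟨q0⟩ := ‹Nonempty Q›
  let e : Q →o (P →o P) := ⟨fun q => (F q) ^ N, fun a b hab => pow_le _ _ (F.monotone hab) N⟩
  have he : ∀ q, e q = (F q) ^ N := fun q => rfl
  have heidem : ∀ q, e q * e q = e q := fun q => hidem _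
  -- the component
  let E : Set (P →o P) := {g | Conn (e q0) g}
  have hEe : ∀ q, e q ∈ E := by
    intro q
    obtain ⟨n, s, h⟩ := fen_of_conn hcQ q0 q
    exact conn_of_fen e n s q0 q h
  have hEmul : ∀ g ∈ E, ∀ h ∈ E, g * h ∈ E := by
    intro g hg h hh
    have := Conn.mul (show Conn (e q0) g from hg) (show Conn (e q0) h from hh)
    rw [heidem] at this
    exact this
  have hEpow : ∀ g ∈ E, ∀ n : ℕ, g ^ (n+1) ∈ E := by
    intro g hg n
    induction n with
    | zero => simpa using hg
    | succ n ih => rw [pow_succ]; exact hEmul _ ih _ hg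
  -- a member with minimal range
  obtain ⟨ρ1, hρ1E, hρ1min⟩ := Set.exists_min_image E (fun g => (Set.range g).ncard)
    (Set.toFinite E) ⟨e q0, hEe q0⟩
  obtain ⟨ρ, hρE, hρi, hρmin⟩ : ∃ ρ ∈ E, ρ * ρ = ρ ∧ ∀ g ∈ E, (Set.range ρ).ncard ≤ (Set.range g).ncard := by
    refine ⟨ρ1 ^ N, ?_, hidem _, ?_⟩
    · obtain ⟨m, rfl⟩ : ∃ m, N = m + 1 := ⟨N - 1, by omega⟩
      exact hEpow _ hρ1E m
    · intro g hg
      refine le_trans ?_ (hρ1min g hg)
      refine Set.ncard_le_ncard ?_ (Set.toFinite _)
      rintro _ ⟨x, rfl⟩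
      obtain ⟨m, rfl⟩ : ∃ m, N = m + 1 := ⟨N - 1, by omega⟩
      rw [pow_succ', mul_app]
      exact ⟨_, rfl⟩
  have hρid : ∀ c ∈ Set.range ρ, ρ c = c := by
    rintro _ ⟨x, rfl⟩
    have := congrArg (fun g : P →o P => g x) hρi
    exact this
  have hinj : ∀ g ∈ E, Set.InjOn g (Set.range ρ) := by
    intro g hg
    have h1 := hρmin (g * ρ) (hEmul g hg ρ hρE)
    have h2 : Set.range (g * ρ : P →o P) = g '' Set.range ρ := by
      ext y
      constructor
      · rintro ⟨x, rfl⟩; exact ⟨ρ x, ⟨x, rfl⟩, rfl⟩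
      · rintro ⟨_, ⟨x, rfl⟩, rfl⟩; exact ⟨x, rfl⟩
    rw [h2] at h1
    have h4 : (g '' Set.range ρ).ncard ≤ (Set.range ρ).ncard := Set.ncard_image_le (Set.toFinite _)
    exact (Set.ncard_image_iff (Set.toFinite _)).mp (le_antisymm h4 h1)
  by_cases hcard : ∃ c1 ∈ Set.range ρ, ∃ c2 ∈ Set.range ρ, c1 ≠ c2
  · -- at least two points
    left
    obtain ⟨c1, hc1, c2, hc2, hc12⟩ := hcard
    have hnb : ∀ c ∈ Set.range ρ, ∃ c' ∈ Set.range ρ, Nb c c' := by
      intro c hc
      by_contra hcon
      push Not at hcon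
      have key : ∀ (n : ℕ) (s : Bool) (a b : P), Fen n s a b → ρ a = c → ρ b = c := by
        intro n
        induction n with
        | zero => intro s a b h ha; simp only [Fen] at h; rw [← h]; exact ha
        | succ n ih =>
            intro s a b h ha
            cases s with
            | true =>
                obtain ⟨x, h1, h2⟩ := h
                refine ih _ _ _ h2 ?_
                by_contra hne
                have := ρ.monotone h1
                rw [ha] at this
                exact hcon (ρ x) ⟨x, rfl⟩ (Or.inl (lt_of_le_of_ne this (Ne.symm hne)))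
            | false =>
                obtain ⟨x, h1, h2⟩ := h
                refine ih _ _ _ h2 ?_
                by_contra hne
                have := ρ.monotone h1
                rw [ha] at this
                exact hcon (ρ x) ⟨x, rfl⟩ (Or.inr (lt_of_le_of_ne this hne))
      have all : ∀ d ∈ Set.range ρ, d = c := by
        intro d hd
        obtain ⟨n, s, h⟩ := fen_of_conn hcP c d
        have := key n s c d h (hρid c hc)
        rw [hρid d hd] at this
        exact this
      exact hc12 ((all c1 hc1).trans (all c2 hc2).symm)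
    have heq : ∀ g g' : P →o P, g ≤ g' → Set.InjOn g (Set.range ρ) → Set.InjOn g' (Set.range ρ) →
        ∀ c ∈ Set.range ρ, g c = g' c := by
      intro g g' hgg hg hg' c hc
      by_contra hne
      have hlt : g c < g' c := lt_of_le_of_ne (hgg c) hne
      obtain ⟨c', hc', hn | hn⟩ := hnb c hc
      · have : g' c < g' c' := by
          refine lt_of_le_of_ne (g'.monotone hn.le) ?_
          intro h; exact hn.ne (hg' hc hc' h)
        exact h3 _ _ _ hlt this
      · have : g c' < g c := by
          refine lt_of_le_of_ne (g.monotone hn.le) ?_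
          intro h; exact hn.ne (hg hc' hc h)
        exact h3 _ _ _ this hlt
    have hE0 : ∀ g, Conn (e q0) g → ∀ c ∈ Set.range ρ, g c = e q0 c := by
      intro g hg
      induction hg with
      | refl => intro c _; rfl
      | @tail g1 g2 hg1 h2 ih =>
          intro c hc
          have hg1E : g1 ∈ E := hg1
          have hg2E : g2 ∈ E := Relation.ReflTransGen.tail hg1 h2
          rcases h2 with h2 | h2
          · rw [← heq g1 g2 h2 (hinj _ hg1E) (hinj _ hg2E) c hc]; exact ih c hc
          · rw [heq g2 g1 h2 (hinj _ hg2E) (hinj _ hg1E) c hc]; exact ih c hc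
    have hE1 : ∀ g ∈ E, ∀ c ∈ Set.range ρ, g c = c := by
      intro g hg c hc
      rw [hE0 g hg c hc, ← hE0 ρ hρE c hc]
      exact hρid c hc
    have hFinj : ∀ q, Set.InjOn (F q) (Set.range ρ) := by
      intro q x hx y hy hxy
      have h1 := hE1 (e q) (hEe q)
      have h2 : e q x = e q y := by
        rw [he]
        obtain ⟨m, rfl⟩ : ∃ m, N = m + 1 := ⟨N - 1, by omega⟩
        rw [pow_succ, mul_app, mul_app, hxy]
      rw [h1 x hx, h1 y hy] at h2
      exact h2
    have hFeq : ∀ (n : ℕ) (s : Bool) (a b : Q), Fen n s a b → ∀ c ∈ Set.range ρ, F a c = F b c := by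
      intro n
      induction n with
      | zero => intro s a b h c _; simp only [Fen] at h; rw [h]
      | succ n ih =>
          intro s a b h c hc
          cases s with
          | true =>
              obtain ⟨x, h1, h2⟩ := h
              rw [← ih _ _ _ h2 c hc]
              exact heq _ _ (F.monotone h1) (hFinj _) (hFinj _) c hc
          | false =>
              obtain ⟨x, h1, h2⟩ := h
              rw [← ih _ _ _ h2 c hc]
              exact (heq _ _ (F.monotone h1) (hFinj _) (hFinj _) c hc).symm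
    have hFC : Set.range ρ ⊆ F q0 '' Set.range ρ := by
      intro c hc
      have hmem : F q0 * ρ * (F q0) ^ (N - 1) ∈ E := by
        have h1 : Conn (F q0 * e q0 * (F q0) ^ (N-1)) (F q0 * ρ * (F q0) ^ (N - 1)) :=
          Conn.mul (Conn.mul (Conn.refl _) hρE) (Conn.refl _)
        have h2 : F q0 * e q0 * (F q0) ^ (N-1) = e q0 := by
          have h5 : F q0 * e q0 * (F q0) ^ (N-1) = F q0 ^ N * F q0 ^ N := by
            rw [he]
            obtain ⟨m, rfl⟩ : ∃ m, N = m + 1 := ⟨N - 1, by omega⟩
            rw [← pow_succ', ← pow_add, ← pow_add]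
            congr 1
            simp only [Nat.add_sub_cancel]
            omega
          rw [h5, hidem, he]
        rw [h2] at h1
        exact h1
      have := hE1 _ hmem c hc
      rw [mul_app, mul_app] at this
      exact ⟨ρ ((F q0 ^ (N-1)) c), ⟨_, rfl⟩, this⟩
    have hFC2 : F q0 '' Set.range ρ ⊆ Set.range ρ := by
      have h1 : (F q0 '' Set.range ρ).ncard ≤ (Set.range ρ).ncard := Set.ncard_image_le (Set.toFinite _)
      exact (Set.eq_of_subset_of_ncard_le hFC h1 (Set.toFinite _)).symm.subset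
    refine ⟨ρ, q0, fun q p => ⟨?_, ?_⟩⟩
    · obtain ⟨n, s, h⟩ := fen_of_conn hcQ q q0
      exact hFeq n s q q0 h (ρ p) ⟨p, rfl⟩
    · exact hρid _ (hFC2 ⟨ρ p, ⟨p, rfl⟩, rfl⟩)
  · -- a constant lies in the component
    right
    push Not at hcard
    have hconst : ∀ x y, ρ x = ρ y := fun x y => hcard _ ⟨x, rfl⟩ _ ⟨y, rfl⟩
    -- companions
    have hcomp : ∀ q, Comp (F q) (e q) := by
      intro q
      refine ⟨?_, ?_, ?_, ?_, ?_, ?_⟩
      · intro x
        have := congrArg (fun g : P →o P => g x) (heidem q)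
        exact this
      · intro x
        have : F q * e q = e q * F q := by rw [he, ← pow_succ, ← pow_succ']
        exact congrArg (fun g : P →o P => g x) this
      · intro x hx
        exact pow_fix _ _ hx N
      · intro x hx
        exact fix_up _ N hN (hidem _) x hx
      · intro x hx
        exact fix_down _ N hN (hidem _) x hx
      · intro S hS hfix
        have hcq : Conn (e q) ρ := Conn.trans (Conn.symm (show Conn (e q0) (e q) from hEe q)) hρE
        have h1 := rigid h3 S hS (e q) ρ hcq hfix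
        rw [Set.eq_empty_iff_forall_notMem]
        intro x hx
        obtain ⟨y, hy, z, hz, hyz, _, _⟩ := hS x hx
        exact hyz (by rw [← h1 y hy, ← h1 z hz]; exact hconst y z)
    -- every F q has a fixed point
    have hfixpt : ∀ q, ∃ z, F q z = z := by
      intro q
      obtain ⟨p0⟩ := ‹Nonempty P›
      have h1 : Conn (F q * ρ) (F q * e q) :=
        Conn.mul (Conn.refl _) (Conn.trans (Conn.symm hρE) (show Conn (e q0) (e q) from hEe q))
      have h2 : Near (2*0) (F q * ρ) := by
        refine ⟨F q (ρ p0), true, ?_⟩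
        change F q (ρ p0) = F q (ρ (F q (ρ p0)))
        exact congrArg (F q) (hconst _ _)
      obtain ⟨x, s, hx⟩ := Near.conn 0 _ _ h1 h2
      have hx1 : x = F q (e q x) := hx
      refine ⟨x, ?_⟩
      have hx2 : e q x = x := by
        rw [hx1, ← (hcomp q).comm, (hcomp q).idem]
      rw [hx2] at hx1
      exact hx1.symm
    obtain ⟨p0⟩ := ‹Nonempty P›
    have hsel : ∀ q, ∃ z, F q z = z ∧ ∀ z1, F q z1 = z1 → D (e q p0) z ≤ D (e q p0) z1 := by
      intro q
      obtain ⟨z0, hz0⟩ := hfixpt q
      obtain ⟨z, hz, hmin⟩ := Set.exists_min_image {z | F q z = z} (fun z => D (e q p0) z)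
        (Set.toFinite _) ⟨z0, hz0⟩
      exact ⟨z, hz, hmin⟩
    choose s hs hmin using hsel
    refine ⟨⟨s, ?_⟩, hs⟩
    intro q q' hqq
    exact gate_mono h3 hcP (F q) (F q') (e q) (e q') (hcomp q) (hcomp q') (F.monotone hqq)
      (e.monotone hqq) p0 (s q) (s q') (hs q) (hmin q) (hs q') (hmin q')

end Select

section Final

variable {A B : Type} [PartialOrder A] [PartialOrder B]

/-- retracts have smaller Distortion -/
theorem Distortion_retract (i : A →o B) (r : B →o A) (hri : ∀ a, r (i a) = a) :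
    Distortion A ≤ Distortion B := by
  refine iSup_le fun g => ?_
  refine le_trans ?_ (le_iSup (fun h : B →o B => distortion h) ((i.comp g).comp r))
  refine le_iInf fun b => ?_
  refine le_trans (iInf_le _ (r b)) ?_
  have h := edist_map_le r b (((i.comp g).comp r) b)
  have h2 : r (((i.comp g).comp r) b) = g (r b) := hri _
  rw [h2] at h
  exact h

theorem Near.of_distortion [Finite A] [Nonempty A] (n : ℕ) (g : A →o A) (h : distortion g ≤ n) :
    Near n g := by
  obtain ⟨a, ha⟩ := Finite.exists_min (fun a => (cg A).edist a (g a))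
  have h1 : (cg A).edist a (g a) ≤ distortion g := le_iInf ha
  obtain ⟨s, hs⟩ := Fen.of_edist (le_trans h1 h)
  exact ⟨a, s, hs⟩

theorem Near.distortion_le (n : ℕ) (g : A →o A) (h : Near n g) : distortion g ≤ n := by
  obtain ⟨a, s, hs⟩ := h
  exact le_trans (iInf_le _ a) (Fen.edist_le n s a _ hs)

theorem connected_of_near [Nonempty A] (n : ℕ) (h : ∀ g : A →o A, Near n g) : (cg A).Connected := by
  classical
  rw [SimpleGraph.connected_iff]
  refine ⟨?_, inferInstance⟩
  intro a b
  by_contra hab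
  have hle : ∀ x y : A, x ≤ y → (cg A).Reachable x y := by
    intro x y hxy
    by_cases h : x = y
    · rw [h]
    · exact SimpleGraph.Adj.reachable ⟨h, Or.inl hxy⟩
  let g : A →o A := ⟨fun x => if (cg A).Reachable a x then b else a, by
    intro x y hxy
    have h1 := hle x y hxy
    by_cases hx : (cg A).Reachable a x
    · have hy : (cg A).Reachable a y := hx.trans h1
      simp [hx, hy]
    · have hy : ¬ (cg A).Reachable a y := fun hy => hx (hy.trans h1.symm)
      simp [hx, hy]⟩
  obtain ⟨x, s, hs⟩ := h g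
  have h1 := Fen.edist_le n s _ _ hs
  have h2 : (cg A).edist x (g x) ≠ ⊤ := ne_top_of_le_ne_top (ENat.natCast_ne_top n) h1
  have h3 := SimpleGraph.reachable_of_edist_ne_top h2
  by_cases hx : (cg A).Reachable a x
  · have : g x = b := if_pos hx
    rw [this] at h3
    exact hab (hx.trans h3)
  · have : g x = a := if_neg hx
    rw [this] at h3
    exact hx h3.symm

/-- near points for maps of `P × Q`, `P` without 3-chains -/
theorem near_prod {P Q : Type} [PartialOrder P] [PartialOrder Q] [Finite P] [Nonempty P]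
    [Finite Q] [Nonempty Q] (h3 : ∀ x y z : P, x < y → y < z → False) (j : ℕ)
    (hP : ∀ g : P →o P, Near (2*j) g) (hQ : ∀ g : Q →o Q, Near (2*j) g)
    (f : P × Q →o P × Q) : Near (2*j) f := by
  have hcP := connected_of_near _ hP
  have hcQ := connected_of_near _ hQ
  apply Near.even
  let F : Q →o (P →o P) := ⟨fun q => ⟨fun p => (f (p, q)).1, fun a b hab =>
    (f.monotone (show (a, q) ≤ (b, q) from ⟨hab, le_rfl⟩)).1⟩, fun q q' hq p =>
    (f.monotone (show (p, q) ≤ (p, q') from ⟨le_rfl, hq⟩)).1⟩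
  have hF : ∀ q p, F q p = (f (p, q)).1 := fun _ _ => rfl
  have fin : ∀ (p : P) (q : Q) (s t : Bool), Fen (2*j) s p (f (p,q)).1 → Fen (2*j) t q (f (p,q)).2 →
      Near (2*j+1) f := by
    intro p q s t h1 h2
    refine ⟨(p, q), true, ?_⟩
    exact Fen.prod _ _ _ _ _ _ (Fen.padTo _ s true _ _ h1) (Fen.padTo _ t true _ _ h2)
  rcases dichotomy h3 hcP hcQ F with ⟨ρ, q0, h⟩ | ⟨s, hs⟩
  · obtain ⟨p, s, hp⟩ := hP ((F q0).comp ρ)
    have hp1 : Fen (2*j) s (ρ p) (ρ (F q0 (ρ p))) := Fen.map ρ _ _ _ _ hp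
    rw [(h q0 p).2] at hp1
    let G : Q →o Q := ⟨fun q => (f (ρ p, q)).2, fun a b hab =>
      (f.monotone (show (ρ p, a) ≤ (ρ p, b) from ⟨le_rfl, hab⟩)).2⟩
    obtain ⟨q, t, hq⟩ := hQ G
    refine fin (ρ p) q s t ?_ hq
    rw [← hF, (h q p).1]
    exact hp1
  · let G : Q →o Q := ⟨fun q => (f (s q, q)).2, fun a b hab =>
      (f.monotone (show (s a, a) ≤ (s b, b) from ⟨s.monotone hab, hab⟩)).2⟩
    obtain ⟨q, t, hq⟩ := hQ G
    refine fin (s q) q true t ?_ hq
    rw [← hF, hs q]
    exact Fen.mono (Nat.zero_le _) true _ _ rfl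

/-- near points for maps of `P × Q` when the core of `P` has no 3-chains -/
theorem near_prod_core {P Q : Type} [PartialOrder P] [PartialOrder Q] [Finite P] [Nonempty P]
    [Finite Q] [Nonempty Q] (r : P →o P) (hr : Conn OrderHom.id r)
    (h3 : ¬ ∃ x y z : P, r x < r y ∧ r y < r z) (j : ℕ)
    (hP : ∀ g : P →o P, Near (2*j) g) (hQ : ∀ g : Q →o Q, Near (2*j) g)
    (f : P × Q →o P × Q) : Near (2*j) f := by
  have : Finite (P →o P) := Finite.of_injective (fun g : P →o P => (g : P → P)) DFunLike.coe_injective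
  obtain ⟨N, hN, hidem⟩ := exists_idem (P →o P)
  have hpow : ∀ n : ℕ, Conn (OrderHom.id : P →o P) (r ^ n) := by
    intro n
    induction n with
    | zero => exact Conn.refl _
    | succ n ih =>
        rw [pow_succ]
        have := Conn.mul ih hr
        exact this
  obtain ⟨m, rfl⟩ : ∃ m, N = m + 1 := ⟨N - 1, by omega⟩
  generalize hρ : r ^ (m+1) = ρ at *
  have hρc : Conn (OrderHom.id : P →o P) ρ := hρ ▸ hpow (m+1)
  have hρi : ∀ x, ρ (ρ x) = ρ x := by
    intro x
    have := congrArg (fun g : P →o P => g x) (hidem r)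
    simp only [hρ] at this
    exact this
  have hρr : ∀ x, ∃ y, ρ x = r y := by
    intro x
    rw [← hρ, pow_succ', mul_app]
    exact ⟨_, rfl⟩
  let P1 := {x : P // ρ x = x}
  obtain ⟨p0⟩ := ‹Nonempty P›
  have : Nonempty P1 := ⟨⟨ρ p0, hρi p0⟩⟩
  let ι : P1 →o P := ⟨fun x => x.1, fun _ _ h => h⟩
  let π : P →o P1 := ⟨fun x => ⟨ρ x, hρi x⟩, fun _ _ h => ρ.monotone h⟩
  have hιπ : ∀ x, ι (π x) = ρ x := fun _ => rfl
  have hπι : ∀ x, π (ι x) = x := fun x => Subtype.ext x.2
  have h31 : ∀ x y z : P1, x < y → y < z → False := by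
    intro x y z hxy hyz
    apply h3
    obtain ⟨x', hx'⟩ := hρr x.1
    obtain ⟨y', hy'⟩ := hρr y.1
    obtain ⟨z', hz'⟩ := hρr z.1
    rw [x.2] at hx'
    rw [y.2] at hy'
    rw [z.2] at hz'
    refine ⟨x', y', z', ?_, ?_⟩
    · rw [← hx', ← hy']; exact hxy
    · rw [← hy', ← hz']; exact hyz
  have hP1 : ∀ g : P1 →o P1, Near (2*j) g := by
    intro g
    obtain ⟨p, s, hp⟩ := hP ((ι.comp g).comp π)
    refine ⟨π p, s, ?_⟩
    have := Fen.map π _ _ _ _ hp
    have h2 : π (((ι.comp g).comp π) p) = g (π p) := hπι _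
    rw [h2] at this
    exact this
  -- the compressed map
  let u : P1 × Q →o P × Q := ⟨fun x => (ι x.1, x.2), fun a b h => ⟨ι.monotone h.1, h.2⟩⟩
  let v : P × Q →o P1 × Q := ⟨fun x => (π x.1, x.2), fun a b h => ⟨π.monotone h.1, h.2⟩⟩
  obtain ⟨x, s, hx⟩ := near_prod h31 j hP1 hQ ((v.comp f).comp u)
  have hx2 := Fen.map u _ _ _ _ hx
  have hnear : Near (2*j) ((u.comp v).comp f) := ⟨u x, s, hx2⟩
  -- homotopy
  let φ : (P →o P) → (P × Q →o P × Q) := fun g =>
    (⟨fun x => (g (f x).1, (f x).2), fun a b h => ⟨g.monotone (f.monotone h).1, (f.monotone h).2⟩⟩ :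
      P × Q →o P × Q)
  have hφ : Monotone φ := fun g h hgh x => ⟨hgh _, le_rfl⟩
  have hconn : Conn (φ ρ) (φ OrderHom.id) := (Conn.lift φ hφ hρc).symm
  have e1 : φ ρ = (u.comp v).comp f := by
    ext x
    · rfl
    · rfl
  have e2 : φ OrderHom.id = f := by
    ext x
    · rfl
    · rfl
  rw [e1, e2] at hconn
  exact Near.conn j _ _ hconn hnear

theorem distortion_prod {P Q : Type} [PartialOrder P] [PartialOrder Q] [Finite P] [Nonempty P]
    [Finite Q] [Nonempty Q] (r : P →o P) (hr : Conn OrderHom.id r)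
    (h3 : ¬ ∃ x y z : P, r x < r y ∧ r y < r z) :
    Distortion (P × Q) = max (Distortion P) (Distortion Q) := by
  obtain ⟨p0⟩ := ‹Nonempty P›
  obtain ⟨q0⟩ := ‹Nonempty Q›
  have lowP : Distortion P ≤ Distortion (P × Q) :=
    Distortion_retract ⟨fun p => (p, q0), fun _ _ h => ⟨h, le_rfl⟩⟩ OrderHom.fst (fun _ => rfl)
  have lowQ : Distortion Q ≤ Distortion (P × Q) :=
    Distortion_retract ⟨fun q => (p0, q), fun _ _ h => ⟨le_rfl, h⟩⟩ OrderHom.snd (fun _ => rfl)
  have : Nonempty P := ⟨p0⟩
  have : Nonempty Q := ⟨q0⟩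
  apply le_antisymm _ (max_le lowP lowQ)
  by_cases htop : max (Distortion P) (Distortion Q) = ⊤
  · rw [htop]; exact le_top
  obtain ⟨n, hn⟩ := ENat.ne_top_iff_exists.mp htop
  have hPn : ∀ g : P →o P, Near (2*(n/2)) g := by
    intro g
    have h1 : distortion g ≤ n := by
      rw [hn]; exact le_trans (le_iSup (fun g : P →o P => distortion g) g) (le_max_left _ _)
    have h2 := Near.of_distortion n g h1
    rcases Nat.even_or_odd' n with ⟨k, hk | hk⟩
    · rw [hk] at h2 ⊢
      rwa [Nat.mul_div_cancel_left _ (by norm_num)]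
    · rw [hk] at h2 ⊢
      rw [show (2*k+1)/2 = k by omega]
      exact Near.even _ _ h2
  have hQn : ∀ g : Q →o Q, Near (2*(n/2)) g := by
    intro g
    have h1 : distortion g ≤ n := by
      rw [hn]; exact le_trans (le_iSup (fun g : Q →o Q => distortion g) g) (le_max_right _ _)
    have h2 := Near.of_distortion n g h1
    rcases Nat.even_or_odd' n with ⟨k, hk | hk⟩
    · rw [hk] at h2 ⊢
      rwa [Nat.mul_div_cancel_left _ (by norm_num)]
    · rw [hk] at h2 ⊢
      rw [show (2*k+1)/2 = k by omega]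
      exact Near.even _ _ h2
  rw [← hn]
  refine iSup_le fun f => ?_
  have h := near_prod_core r hr h3 (n/2) hPn hQn f
  refine le_trans (Near.distortion_le _ _ h) ?_
  exact_mod_cast Nat.mul_div_le n 2

end Final

section More

variable {A B : Type} [PartialOrder A] [PartialOrder B]

theorem Distortion_le_iff [Finite A] [Nonempty A] (n : ℕ) :
    Distortion A ≤ n ↔ ∀ g : A →o A, Near (2*(n/2)) g := by
  constructor
  · intro h g
    have h1 : distortion g ≤ n := le_trans (le_iSup (fun g : A →o A => distortion g) g) h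
    have h2 := Near.of_distortion n g h1
    rcases Nat.even_or_odd' n with ⟨k, hk | hk⟩
    · rw [hk] at h2 ⊢
      rwa [Nat.mul_div_cancel_left _ (by norm_num)]
    · rw [hk] at h2 ⊢
      rw [show (2*k+1)/2 = k by omega]
      exact Near.even _ _ h2
  · intro h
    refine iSup_le fun g => ?_
    refine le_trans (Near.distortion_le _ _ (h g)) ?_
    exact_mod_cast Nat.mul_div_le n 2

theorem le_of_nat {x y : ℕ∞} (h : ∀ n : ℕ, y ≤ n → x ≤ n) : x ≤ y := by
  by_cases hy : y = ⊤
  · rw [hy]; exact le_top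
  · obtain ⟨n, hn⟩ := ENat.ne_top_iff_exists.mp hy
    have := h n (le_of_eq hn.symm)
    rwa [hn] at this

/-- homotopy equivalence of finite posets -/
def HEquiv (A B : Type) [PartialOrder A] [PartialOrder B] : Prop :=
  ∃ (i : A →o B) (r : B →o A), Conn (r.comp i) OrderHom.id ∧ Conn (i.comp r) OrderHom.id

theorem HEquiv.symm (h : HEquiv A B) : HEquiv B A := by
  obtain ⟨i, r, h1, h2⟩ := h
  exact ⟨r, i, h2, h1⟩

theorem HEquiv.le [Finite A] [Nonempty A] [Finite B] [Nonempty B] (h : HEquiv A B) :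
    Distortion A ≤ Distortion B := by
  obtain ⟨i, r, h1, h2⟩ := h
  apply le_of_nat
  intro n hn
  rw [Distortion_le_iff] at hn ⊢
  intro g
  obtain ⟨b, s, hb⟩ := hn ((i.comp g).comp r)
  have hb2 := Fen.map r _ _ _ _ hb
  have hnear : Near (2*(n/2)) ((r.comp i).comp g) := ⟨r b, s, hb2⟩
  have hconn : Conn ((r.comp i).comp g) (OrderHom.id.comp g) :=
    Conn.lift (fun k : A →o A => k.comp g) (fun k k' hk x => hk (g x)) h1
  exact Near.conn _ _ _ hconn hnear

theorem HEquiv.eq [Finite A] [Nonempty A] [Finite B] [Nonempty B] (h : HEquiv A B) :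
    Distortion A = Distortion B := le_antisymm h.le h.symm.le

theorem HEquiv.prod (Q : Type) [PartialOrder Q] (h : HEquiv A B) : HEquiv (A × Q) (B × Q) := by
  obtain ⟨i, r, h1, h2⟩ := h
  refine ⟨⟨fun x => (i x.1, x.2), fun a b h => ⟨i.monotone h.1, h.2⟩⟩,
    ⟨fun x => (r x.1, x.2), fun a b h => ⟨r.monotone h.1, h.2⟩⟩, ?_, ?_⟩
  · exact Conn.lift (fun k : A →o A => (⟨fun x => (k x.1, x.2), fun a b h => ⟨k.monotone h.1, h.2⟩⟩ :
      A × Q →o A × Q)) (fun k k' hk x => ⟨hk _, le_rfl⟩) h1
  · exact Conn.lift (fun k : B →o B => (⟨fun x => (k x.1, x.2), fun a b h => ⟨k.monotone h.1, h.2⟩⟩ :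
      B × Q →o B × Q)) (fun k k' hk x => ⟨hk _, le_rfl⟩) h2

theorem lower_left (Q : Type) [PartialOrder Q] [Nonempty Q] : Distortion A ≤ Distortion (A × Q) := by
  obtain ⟨q0⟩ := ‹Nonempty Q›
  exact Distortion_retract ⟨fun p => (p, q0), fun _ _ h => ⟨h, le_rfl⟩⟩ OrderHom.fst (fun _ => rfl)

theorem lower_right (P : Type) [PartialOrder P] [Nonempty P] : Distortion A ≤ Distortion (P × A) := by
  obtain ⟨p0⟩ := ‹Nonempty P›
  exact Distortion_retract ⟨fun q => (p0, q), fun _ _ h => ⟨le_rfl, h⟩⟩ OrderHom.snd (fun _ => rfl)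

theorem Distortion_swap (P Q : Type) [PartialOrder P] [PartialOrder Q] :
    Distortion (P × Q) = Distortion (Q × P) := by
  apply le_antisymm
  · exact Distortion_retract ⟨fun x => (x.2, x.1), fun _ _ h => ⟨h.2, h.1⟩⟩
      ⟨fun x => (x.2, x.1), fun _ _ h => ⟨h.2, h.1⟩⟩ (fun _ => rfl)
  · exact Distortion_retract ⟨fun x => (x.2, x.1), fun _ _ h => ⟨h.2, h.1⟩⟩
      ⟨fun x => (x.2, x.1), fun _ _ h => ⟨h.2, h.1⟩⟩ (fun _ => rfl)

theorem Distortion_assoc (P P' Q : Type) [PartialOrder P] [PartialOrder P'] [PartialOrder Q] :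
    Distortion ((P × P') × Q) = Distortion (P × (P' × Q)) := by
  apply le_antisymm
  · exact Distortion_retract ⟨fun x => (x.1.1, (x.1.2, x.2)), fun _ _ h => ⟨h.1.1, h.1.2, h.2⟩⟩
      ⟨fun x => ((x.1, x.2.1), x.2.2), fun _ _ h => ⟨⟨h.1, h.2.1⟩, h.2.2⟩⟩ (fun _ => rfl)
  · exact Distortion_retract ⟨fun x => ((x.1, x.2.1), x.2.2), fun _ _ h => ⟨⟨h.1, h.2.1⟩, h.2.2⟩⟩
      ⟨fun x => (x.1.1, (x.1.2, x.2)), fun _ _ h => ⟨h.1.1, h.1.2, h.2⟩⟩ (fun _ => rfl)

/-- the maximum of two Distortions, if finite, is even -/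
theorem max_even (P Q : Type) [PartialOrder P] [PartialOrder Q] [Finite P] [Nonempty P] [Finite Q]
    [Nonempty Q] (n : ℕ) (h : max (Distortion P) (Distortion Q) = n) : n = 2*(n/2) := by
  have hP : Distortion P ≤ n := h ▸ le_max_left _ _
  have hQ : Distortion Q ≤ n := h ▸ le_max_right _ _
  rw [Distortion_le_iff] at hP hQ
  have hP' : Distortion P ≤ ((2*(n/2) : ℕ) : ℕ∞) := by
    rw [Distortion_le_iff]
    rwa [Nat.mul_div_cancel_left _ (by norm_num)]
  have hQ' : Distortion Q ≤ ((2*(n/2) : ℕ) : ℕ∞) := by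
    rw [Distortion_le_iff]
    rwa [Nat.mul_div_cancel_left _ (by norm_num)]
  have := max_le hP' hQ'
  rw [h] at this
  have h2 : n ≤ 2*(n/2) := by exact_mod_cast this
  omega

/-- near points when `P` has an extremal point of small eccentricity -/
theorem near_ecc {P Q : Type} [PartialOrder P] [PartialOrder Q] [Finite P]
    [Finite Q] (x : P) (hx : IsMin x ∨ IsMax x) (j : ℕ)
    (hecc : ∀ p, (cg P).edist x p ≤ ((2*j+1 : ℕ) : ℕ∞)) (hQ : ∀ g : Q →o Q, Near (2*j) g)
    (f : P × Q →o P × Q) : Near (2*j) f := by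
  apply Near.even
  let G : Q →o Q := ⟨fun q => (f (x, q)).2, fun a b hab =>
      (f.monotone (show (x, a) ≤ (x, b) from ⟨le_rfl, hab⟩)).2⟩
  obtain ⟨q, t, hq⟩ := hQ G
  obtain ⟨s, hs⟩ := Fen.of_edist (hecc (f (x, q)).1)
  have key : ∃ u : Bool, Fen (2*j+1) u x (f (x, q)).1 := by exact ⟨s, hs⟩
  rcases hx with hx | hx
  · have h1 : Fen (2*j+1) true x (f (x,q)).1 := by
      cases s with
      | true => exact hs
      | false =>
          obtain ⟨c, h1, h2⟩ := hs
          have : c = x := le_antisymm h1 (hx h1)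
          subst this
          exact Fen.padEnd _ _ _ _ h2
    exact ⟨(x, q), true, Fen.prod _ _ _ _ _ _ h1 (Fen.padTo _ t true _ _ hq)⟩
  · have h1 : Fen (2*j+1) false x (f (x,q)).1 := by
      cases s with
      | false => exact hs
      | true =>
          obtain ⟨c, h1, h2⟩ := hs
          have : c = x := le_antisymm (hx h1) h1
          subst this
          exact Fen.padEnd _ _ _ _ h2
    exact ⟨(x, q), false, Fen.prod _ _ _ _ _ _ h1 (Fen.padTo _ t false _ _ hq)⟩

theorem formula_ecc (P Q : Type) [PartialOrder P] [PartialOrder Q] [Finite P] [Nonempty P]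
    [Finite Q] [Nonempty Q]
    (h : ∃ x : P, (IsMin x ∨ IsMax x) ∧
      ∀ p, (cg P).edist x p ≤ max (Distortion P) (Distortion Q) + 1) :
    Distortion (P × Q) = max (Distortion P) (Distortion Q) := by
  apply le_antisymm _ (max_le (lower_left Q) (lower_right P))
  by_cases htop : max (Distortion P) (Distortion Q) = ⊤
  · rw [htop]; exact le_top
  obtain ⟨n, hn⟩ := ENat.ne_top_iff_exists.mp htop
  have hev := max_even P Q n hn.symm
  obtain ⟨x, hx, hecc⟩ := h
  rw [← hn]
  rw [Distortion_le_iff]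
  have hQ : Distortion Q ≤ n := hn ▸ le_max_right _ _
  rw [Distortion_le_iff] at hQ
  intro f
  refine near_ecc x hx (n/2) ?_ hQ f
  intro p
  have := hecc p
  rw [← hn] at this
  rw [← hev]
  push_cast
  exact this

/-- fixed point property -/
def FPP (A : Type) [PartialOrder A] : Prop := ∀ g : A →o A, ∃ a, g a = a

theorem two_le_of_not_FPP (P Q : Type) [PartialOrder P] [PartialOrder Q] [Finite P] [Nonempty P]
    [Finite Q] [Nonempty Q] (h : ¬ (FPP P ∧ FPP Q)) : 2 ≤ max (Distortion P) (Distortion Q) := by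
  by_contra hlt
  push Not at hlt
  have htop : max (Distortion P) (Distortion Q) ≠ ⊤ := ne_top_of_lt hlt
  obtain ⟨n, hn⟩ := ENat.ne_top_iff_exists.mp htop
  have hev := max_even P Q n hn.symm
  rw [← hn] at hlt
  have hlt2 : n < 2 := by exact_mod_cast hlt
  have hn0 : n = 0 := by omega
  subst hn0
  have hP : Distortion P ≤ ((0:ℕ) : ℕ∞) := hn ▸ le_max_left _ _
  have hQ : Distortion Q ≤ ((0:ℕ) : ℕ∞) := hn ▸ le_max_right _ _
  rw [Distortion_le_iff] at hP hQ
  apply h
  constructor
  · intro g
    obtain ⟨a, s, ha⟩ := hP g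
    exact ⟨a, ha.symm⟩
  · intro g
    obtain ⟨a, s, ha⟩ := hQ g
    exact ⟨a, ha.symm⟩

theorem exists_min_le [Finite A] (p : A) : ∃ m, IsMin m ∧ m ≤ p := by
  obtain ⟨m, hm, hmin⟩ := Set.Finite.exists_minimalFor id {y : A | y ≤ p} (Set.toFinite _) ⟨p, le_rfl⟩
  refine ⟨m, ?_, hm⟩
  intro y hy
  exact hmin (le_trans hy hm) hy

/-- a connected poset with at most three minimal elements has a minimal element `x` with
`d(x,p) ≤ 3` for all `p` -/
theorem center_of_three [Finite A] [Nonempty A] (hc : (cg A).Connected)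
    (hM : {m : A | IsMin m}.ncard ≤ 3) :
    ∃ x : A, IsMin x ∧ ∀ p, (cg A).edist x p ≤ ((3 : ℕ) : ℕ∞) := by
  classical
  -- share an upper bound
  have nbr : ∀ a : A, IsMin a → (∃ b, IsMin b ∧ b ≠ a) → ∃ b, IsMin b ∧ b ≠ a ∧ ∃ u, a ≤ u ∧ b ≤ u := by
    intro a ha ⟨b0, hb0, hne0⟩
    by_contra hcon
    push Not at hcon
    have key : ∀ (n : ℕ) (s : Bool) (x y : A), Fen n s x y → a ≤ x → a ≤ y := by
      intro n
      induction n with
      | zero => intro s x y h hx; simp only [Fen] at h; rwa [← h]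
      | succ n ih =>
          intro s x y h hx
          cases s with
          | true =>
              obtain ⟨z, h1, h2⟩ := h
              exact ih _ _ _ h2 (le_trans hx h1)
          | false =>
              obtain ⟨z, h1, h2⟩ := h
              refine ih _ _ _ h2 ?_
              obtain ⟨m, hm, hmz⟩ := exists_min_le z
              by_cases hma : m = a
              · rwa [← hma]
              · exact absurd (le_trans hmz h1) (hcon m hm hma x hx)
    obtain ⟨n, s, h⟩ := fen_of_conn hc a b0
    have := key n s a b0 h le_rfl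
    exact hne0 (le_antisymm (hb0 this) this)
  have fin : ∀ x : A, IsMin x → (∀ m, IsMin m → ∃ u, x ≤ u ∧ m ≤ u) →
      ∃ x : A, IsMin x ∧ ∀ p, (cg A).edist x p ≤ ((3 : ℕ) : ℕ∞) := by
    intro x hx h
    refine ⟨x, hx, fun p => ?_⟩
    obtain ⟨m, hm, hmp⟩ := exists_min_le p
    obtain ⟨u, h1, h2⟩ := h m hm
    exact Fen.edist_le 3 true x p ⟨u, h1, m, h2, p, hmp, rfl⟩
  obtain ⟨p0⟩ := ‹Nonempty A›
  obtain ⟨x, hx, _⟩ := exists_min_le p0
  by_cases h1 : ∃ b, IsMin b ∧ b ≠ x
  · obtain ⟨y, hy, hyx, u, hu1, hu2⟩ := nbr x hx h1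
    by_cases h2 : ∃ z, IsMin z ∧ z ≠ x ∧ z ≠ y
    · obtain ⟨z, hz, hzx, hzy⟩ := h2
      have hall : ∀ m, IsMin m → m = x ∨ m = y ∨ m = z := by
        intro m hm
        by_contra hcon
        push Not at hcon
        have hsub : ({m, x, y, z} : Set A) ⊆ {m : A | IsMin m} := by
          rintro w (rfl | rfl | rfl | rfl)
          · exact hm
          · exact hx
          · exact hy
          · exact hz
        have h4 : ({m, x, y, z} : Set A).ncard = 4 := by
          rw [Set.ncard_insert_of_notMem (by simp [hcon.1, hcon.2.1, hcon.2.2]),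
            Set.ncard_insert_of_notMem (by simp [hyx.symm, hzx.symm]),
            Set.ncard_pair hzy.symm]
        have := Set.ncard_le_ncard hsub (Set.toFinite _)
        omega
      obtain ⟨t, ht, htz, v, hv1, hv2⟩ := nbr z hz ⟨x, hx, hzx.symm⟩
      rcases hall t ht with rfl | rfl | rfl
      · refine fin t hx ?_
        intro m hm
        rcases hall m hm with rfl | rfl | rfl
        · exact ⟨m, le_rfl, le_rfl⟩
        · exact ⟨u, hu1, hu2⟩
        · exact ⟨v, hv2, hv1⟩
      · refine fin t hy ?_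
        intro m hm
        rcases hall m hm with rfl | rfl | rfl
        · exact ⟨u, hu2, hu1⟩
        · exact ⟨m, le_rfl, le_rfl⟩
        · exact ⟨v, hv2, hv1⟩
      · exact absurd rfl htz
    · push Not at h2
      refine fin x hx ?_
      intro m hm
      by_cases hmx : m = x
      · exact ⟨x, le_rfl, hmx.le⟩
      · rw [h2 m hm hmx]; exact ⟨u, hu1, hu2⟩
  · push Not at h1
    exact fin x hx (fun m hm => ⟨x, le_rfl, (h1 m hm).le⟩)

end More

section More2

variable {A B : Type} [PartialOrder A] [PartialOrder B]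

theorem cg_dual (a b : A) : (cg Aᵒᵈ).edist (OrderDual.toDual a) (OrderDual.toDual b) = (cg A).edist a b := by
  have : cg Aᵒᵈ = cg A := by
    ext x y
    constructor
    · rintro ⟨h1, h2⟩; exact ⟨h1, h2.symm⟩
    · rintro ⟨h1, h2⟩; exact ⟨h1, h2.symm⟩
  exact congrArg (fun G : SimpleGraph A => G.edist a b) this

theorem connected_dual (hc : (cg A).Connected) : (cg Aᵒᵈ).Connected := by
  have : cg Aᵒᵈ = cg A := by
    ext x y
    constructor
    · rintro ⟨h1, h2⟩; exact ⟨h1, h2.symm⟩
    · rintro ⟨h1, h2⟩; exact ⟨h1, h2.symm⟩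
  exact Eq.mpr (congrArg (fun G : SimpleGraph A => G.Connected) this) hc

theorem center_of_three_max [Finite A] [Nonempty A] (hc : (cg A).Connected)
    (hM : {m : A | IsMax m}.ncard ≤ 3) :
    ∃ x : A, IsMax x ∧ ∀ p, (cg A).edist x p ≤ ((3 : ℕ) : ℕ∞) := by
  obtain ⟨x, hx, h⟩ := center_of_three (A := Aᵒᵈ) (connected_dual hc) (by
    have : {m : Aᵒᵈ | IsMin m}.ncard = {m : A | IsMax m}.ncard := by
      have e : {m : Aᵒᵈ | IsMin m} = OrderDual.toDual '' {m : A | IsMax m} := by
        ext m
        constructor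
        · intro hm
          exact ⟨OrderDual.ofDual m, fun b hb => hm (b := OrderDual.toDual b) hb, rfl⟩
        · rintro ⟨b, hb, rfl⟩
          exact fun c hc => hb (b := OrderDual.ofDual c) hc
      rw [e]
      exact Set.ncard_image_of_injective _ OrderDual.toDual.injective
    rw [this]; exact hM)
  refine ⟨OrderDual.ofDual x, fun b hb => hx (b := OrderDual.toDual b) hb, fun p => ?_⟩
  have := h (OrderDual.toDual p)
  rw [← cg_dual]
  exact this

/-- at most three minimal (or maximal) elements -/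
theorem formula_three (P Q : Type) [PartialOrder P] [PartialOrder Q] [Finite P] [Nonempty P]
    [Finite Q] [Nonempty Q] (hM : {m : P | IsMin m}.ncard ≤ 3 ∨ {m : P | IsMax m}.ncard ≤ 3)
    (hF : ¬ (FPP P ∧ FPP Q)) :
    Distortion (P × Q) = max (Distortion P) (Distortion Q) := by
  by_cases htop : max (Distortion P) (Distortion Q) = ⊤
  · apply le_antisymm _ (max_le (lower_left Q) (lower_right P))
    rw [htop]; exact le_top
  obtain ⟨n, hn⟩ := ENat.ne_top_iff_exists.mp htop
  have hP : Distortion P ≤ n := hn ▸ le_max_left _ _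
  rw [Distortion_le_iff] at hP
  have hc := connected_of_near _ hP
  have h2 := two_le_of_not_FPP P Q hF
  have h3 : ((3 : ℕ) : ℕ∞) ≤ max (Distortion P) (Distortion Q) + 1 := by
    calc ((3 : ℕ) : ℕ∞) = 2 + 1 := by norm_num
      _ ≤ max (Distortion P) (Distortion Q) + 1 := by gcongr
  apply formula_ecc
  rcases hM with hM | hM
  · obtain ⟨x, hx, hecc⟩ := center_of_three hc hM
    exact ⟨x, Or.inl hx, fun p => le_trans (hecc p) h3⟩
  · obtain ⟨x, hx, hecc⟩ := center_of_three_max hc hM
    exact ⟨x, Or.inr hx, fun p => le_trans (hecc p) h3⟩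

open Classical in
/-- width at most two and the fixed point property give contractibility -/
theorem contractible_of_width_two : ∀ (n : ℕ) (P : Type) [PartialOrder P] [Finite P] [Nonempty P],
    Nat.card P = n → FPP P →
    (∀ a b c : P, a ≤ b ∨ b ≤ a ∨ b ≤ c ∨ c ≤ b ∨ a ≤ c ∨ c ≤ a) →
    ∃ c : P, Conn OrderHom.id (OrderHom.const P c) := by
  intro n
  induction n using Nat.strong_induction_on with
  | _ n ih =>
  intro P _ _ _ hn hF hw
  obtain ⟨p0⟩ := ‹Nonempty P›
  obtain ⟨a, ha, _⟩ := exists_min_le p0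
  by_cases hall : ∀ p, a ≤ p
  · exact ⟨a, (Conn.of_le (fun p => hall p)).symm⟩
  push Not at hall
  obtain ⟨p1, hp1⟩ := hall
  obtain ⟨b, hb, hbp1⟩ := exists_min_le p1
  have hab : ¬ a ≤ b := fun h => hp1 (le_trans h hbp1)
  have hba : ¬ b ≤ a := fun h => hab (ha h)
  have cov : ∀ p, a ≤ p ∨ b ≤ p := by
    intro p
    obtain ⟨m, hm, hmp⟩ := exists_min_le p
    rcases hw a b m with h | h | h | h | h | h
    · exact absurd h hab
    · exact absurd h hba
    · right; exact le_trans h hmp
    · right; exact le_trans (hb h) hmp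
    · left; exact le_trans h hmp
    · left; exact le_trans (ha h) hmp
  -- extension of a self-map of the common upper bounds
  let U := {p : P // a ≤ p ∧ b ≤ p}
  let sw : (x y : P) → (U →o U) → P → P := fun x y g p =>
    if h : a ≤ p ∧ b ≤ p then (g ⟨p, h⟩).1 else if a ≤ p then x else y
  have swmono : ∀ (x y : P) (g : U →o U), (x = a ∨ x = b) → (y = a ∨ y = b) →
      Monotone (sw x y g) := by
    intro x y g hx hy p q hpq
    simp only [sw]
    by_cases hq : a ≤ q ∧ b ≤ q
    · by_cases hp : a ≤ p ∧ b ≤ p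
      · rw [dif_pos hq, dif_pos hp]
        exact g.monotone (show (⟨p, hp⟩ : U) ≤ ⟨q, hq⟩ from hpq)
      · rw [dif_pos hq, dif_neg hp]
        have h1 := (g ⟨q, hq⟩).2
        split_ifs
        · rcases hx with rfl | rfl
          · exact h1.1
          · exact h1.2
        · rcases hy with rfl | rfl
          · exact h1.1
          · exact h1.2
    · have hp : ¬ (a ≤ p ∧ b ≤ p) := fun h => hq ⟨le_trans h.1 hpq, le_trans h.2 hpq⟩
      rw [dif_neg hq, dif_neg hp]
      by_cases hap : a ≤ p
      · have haq : a ≤ q := le_trans hap hpq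
        simp [hap, haq]
      · have hbp : b ≤ p := (cov p).resolve_left hap
        have hbq : b ≤ q := le_trans hbp hpq
        have haq : ¬ a ≤ q := fun h => hq ⟨h, hbq⟩
        simp [hap, haq]
  have hUF : ∀ g : U →o U, ∃ u, g u = u := by
    intro g
    obtain ⟨p, hp⟩ := hF ⟨sw b a g, swmono b a g (Or.inr rfl) (Or.inl rfl)⟩
    have hp : sw b a g p = p := hp
    simp only [sw] at hp
    by_cases h : a ≤ p ∧ b ≤ p
    · rw [dif_pos h] at hp
      exact ⟨⟨p, h⟩, Subtype.ext hp⟩
    · rw [dif_neg h] at hp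
      exfalso
      split_ifs at hp with h2
      · exact h ⟨h2, hp.le⟩
      · rcases cov p with h3 | h3
        · exact h2 h3
        · exact h2 hp.le
  have : Nonempty U := by
    obtain ⟨u, _⟩ := hUF OrderHom.id
    exact ⟨u⟩
  have hcard : Nat.card U < n := by
    rw [← hn]
    exact Finite.card_subtype_lt (x := a) (fun h => hba h.2)
  obtain ⟨c, hc⟩ := ih _ hcard U rfl hUF (fun x y z => hw x.1 y.1 z.1)
  let ψ : (U →o U) → (P →o P) := fun g => ⟨sw a b g, swmono a b g (Or.inl rfl) (Or.inr rfl)⟩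
  have hψ : Monotone ψ := by
    intro g g' hgg p
    change sw a b g p ≤ sw a b g' p
    simp only [sw]
    by_cases hp : a ≤ p ∧ b ≤ p
    · rw [dif_pos hp, dif_pos hp]
      exact hgg ⟨p, hp⟩
    · rw [dif_neg hp, dif_neg hp]
  have h1 : ψ OrderHom.id ≤ OrderHom.id := by
    intro p
    change sw a b OrderHom.id p ≤ p
    simp only [sw]
    by_cases hp : a ≤ p ∧ b ≤ p
    · rw [dif_pos hp]; exact le_rfl
    · rw [dif_neg hp]
      split_ifs with h2
      · exact h2
      · exact (cov p).resolve_left h2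
  have h2 : ψ (OrderHom.const U c) ≤ OrderHom.const P c.1 := by
    intro p
    change sw a b (OrderHom.const U c) p ≤ c.1
    simp only [sw]
    by_cases hp : a ≤ p ∧ b ≤ p
    · rw [dif_pos hp]; exact le_rfl
    · rw [dif_neg hp]
      split_ifs with h2
      · exact c.2.1
      · exact c.2.2
  exact ⟨c.1, Conn.trans (Conn.of_le h1).symm (Conn.trans (Conn.lift ψ hψ hc) (Conn.of_le h2))⟩

end More2

end Pool.Agent.Helper32.Distortion
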